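import Pool.Agent.helper87.X4.Spec

set_option autoImplicit false

namespace Pool.Agent.X4

open Matrix Pool.Agent.PL

theorem TP : TP_stmt := by
  intro N m R _ u w
  constructor
  · ext I J
    rw [Matrix.mul_apply]
    show ∏ i, (u * w) (I i) (J i) = ∑ K : Fin m → Fin N, (∏ i, u (I i) (K i)) * ∏ i, w (K i) (J i)
    have h1 : ∀ i : Fin m, (u * w) (I i) (J i) = ∑ k, u (I i) k * w k (J i) := fun i =>
      Matrix.mul_apply
    rw [Finset.prod_congr rfl fun i _ => h1 i, Finset.prod_univ_sum, Fintype.piFinset_univ]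
    exact Finset.sum_congr rfl fun K _ => Finset.prod_mul_distrib
  · ext I J
    show ∏ i, (1 : Matrix (Fin N) (Fin N) R) (I i) (J i) = (1 : Matrix _ _ R) I J
    by_cases h : I = J
    · subst h
      rw [Matrix.one_apply_eq]
      exact Finset.prod_eq_one fun i _ => Matrix.one_apply_eq _
    · rw [Matrix.one_apply_ne h]
      obtain ⟨i, hi⟩ := Function.ne_iff.1 h
      exact Finset.prod_eq_zero (Finset.mem_univ i) (Matrix.one_apply_ne hi)

end Pool.Agent.X4
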